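import Pool.Agent.H770Sun.LG
import Pool.Prelude.Def_F_e3cd2ee3

set_option autoImplicit false

/-! Almost all locally representable integers are of the form `a ^ 2 + b ^ 2 + 3 ^ c + 5 ^ d`. -/

namespace Pool.Agent.Results.MP_c903c4_nt.AlmostAll

open Filter Topology Pool.Agent.H770Sun

/-- For every `s`, the integers that are locally representable with the bound `s`, but not of the form
`a ^ 2 + b ^ 2 + 3 ^ c + 5 ^ d`, have natural density zero. -/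
theorem result (s : ℕ) (hs : 0 < s) :
    Tendsto (fun N : ℕ => (({n : ℕ | n ≤ N ∧ LocRep s n ∧ ¬ Nb4c13fae.A n}.ncard : ℕ) : ℝ) / N) atTop (𝓝 0) := by
  classical
  rw [Metric.tendsto_atTop]
  intro ε hε
  have h := local_global s hs (ε / 4) (by positivity)
  obtain ⟨N0, hN0⟩ := eventually_atTop.1 h
  refine ⟨max N0 ⌈4 / ε⌉₊ + 1, fun N hN => ?_⟩
  have hN0' : max N0 ⌈4 / ε⌉₊ ≤ N := Nat.le_of_succ_le hN
  have hN1 : N0 ≤ N := (le_max_left _ _).trans hN0'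
  have hN2 : ⌈4 / ε⌉₊ ≤ N := (le_max_right _ _).trans hN0'
  have hNpos : 0 < N := lt_of_lt_of_le (Nat.succ_pos _) hN
  have hNr : (0 : ℝ) < N := by exact_mod_cast hNpos
  have hN3 : 4 / ε ≤ N := (Nat.le_ceil _).trans (by exact_mod_cast hN2)
  set S := (Finset.Icc 1 N).filter (fun n => LocRep s n ∧ ¬ Nb4c13fae.A n) with hS
  have h1 : {n : ℕ | n ≤ N ∧ LocRep s n ∧ ¬ Nb4c13fae.A n} ⊆ ((insert 0 S : Finset ℕ) : Set ℕ) := by
    rintro n ⟨h1, h2, h3⟩
    rw [Finset.mem_coe, Finset.mem_insert, hS, Finset.mem_filter, Finset.mem_Icc]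
    rcases Nat.eq_zero_or_pos n with h | h
    · exact Or.inl h
    · exact Or.inr ⟨⟨h, h1⟩, h2, h3⟩
  have h2 : {n : ℕ | n ≤ N ∧ LocRep s n ∧ ¬ Nb4c13fae.A n}.ncard ≤ S.card + 1 := by
    refine (Set.ncard_le_ncard h1 (Finset.finite_toSet _)).trans ?_
    rw [Set.ncard_coe_finset]
    exact Finset.card_insert_le _ _
  have h3 : (S.card : ℝ) ≤ ε / 4 * N := by
    apply hN0 N hN1 S
    intro n hn
    rw [hS, Finset.mem_filter, Finset.mem_Icc] at hn
    refine ⟨hn.1.1, hn.1.2, hn.2.1, ?_⟩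
    rintro ⟨a, b, c, d, habcd⟩
    exact hn.2.2 ⟨a, b, c, d, by exact_mod_cast habcd⟩
  have h4 : (({n : ℕ | n ≤ N ∧ LocRep s n ∧ ¬ Nb4c13fae.A n}.ncard : ℕ) : ℝ) ≤ ε / 2 * N := by
    have h5 : (({n : ℕ | n ≤ N ∧ LocRep s n ∧ ¬ Nb4c13fae.A n}.ncard : ℕ) : ℝ) ≤ (S.card : ℝ) + 1 := by exact_mod_cast h2
    rw [div_le_iff₀ hε] at hN3
    linarith
  rw [Real.dist_eq, sub_zero, abs_of_nonneg (by positivity), div_lt_iff₀ hNr]
  have : ε / 2 * N < ε * N := by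
    apply mul_lt_mul_of_pos_right _ hNr
    linarith
  linarith

end Pool.Agent.Results.MP_c903c4_nt.AlmostAll
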