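import Pool.Agent.H770Sun.Asm
import Pool.Prelude.Def_F_e3cd2ee3

set_option autoImplicit false

/-! At least `29/30` of all the integers are of the form `a ^ 2 + b ^ 2 + 3 ^ c + 5 ^ d`. -/

namespace Pool.Agent.Results.MP_c903c4_nt.Density

open Filter Topology Pool.Agent.H770Sun

/-- For every sufficiently large `N`, at least `29 N / 30` of the integers up to `N` are of the form
`a ^ 2 + b ^ 2 + 3 ^ c + 5 ^ d`. -/
theorem result : ∀ᶠ N : ℕ in atTop, (29 / 30 : ℝ) * N ≤ (({n : ℕ | n ≤ N ∧ Nb4c13fae.A n}.ncard : ℕ) : ℝ) := by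
  classical
  filter_upwards [exc_bound] with N hN
  obtain ⟨S, hS⟩ : ∃ S, S = (Finset.Icc 1 N).filter (fun n => ¬ Nb4c13fae.A n) := ⟨_, rfl⟩
  obtain ⟨T, hT⟩ : ∃ T, T = (Finset.Icc 1 N).filter (fun n => Nb4c13fae.A n) := ⟨_, rfl⟩
  have h1 : (S.card : ℝ) ≤ 0.0333 * N := by
    apply hN S
    intro n hn
    rw [hS, Finset.mem_filter, Finset.mem_Icc] at hn
    refine ⟨hn.1.1, hn.1.2, ?_⟩
    rintro ⟨a, b, c, d, habcd⟩
    exact hn.2 ⟨a, b, c, d, by exact_mod_cast habcd⟩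
  have h2 : T.card + S.card = N := by
    rw [hT, hS, Finset.card_filter_add_card_filter_not, Nat.card_Icc, Nat.add_sub_cancel]
  have hsub : (T : Set ℕ) ⊆ {n : ℕ | n ≤ N ∧ Nb4c13fae.A n} := by
    intro n hn
    rw [Finset.mem_coe, hT, Finset.mem_filter, Finset.mem_Icc] at hn
    exact ⟨hn.1.2, hn.2⟩
  have hfin : {n : ℕ | n ≤ N ∧ Nb4c13fae.A n}.Finite :=
    (Set.finite_Iic N).subset (fun n hn => hn.1)
  have h3 : T.card ≤ {n : ℕ | n ≤ N ∧ Nb4c13fae.A n}.ncard := by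
    rw [← Set.ncard_coe_finset]
    exact Set.ncard_le_ncard hsub hfin
  have h4 : (T.card : ℝ) + S.card = N := by exact_mod_cast h2
  have h5 : (T.card : ℝ) ≤ (({n : ℕ | n ≤ N ∧ Nb4c13fae.A n}.ncard : ℕ) : ℝ) := by exact_mod_cast h3
  have hN0 : (0 : ℝ) ≤ N := by positivity
  linarith

end Pool.Agent.Results.MP_c903c4_nt.Density
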